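import Pool.Agent.HT21.FinalB

/-!
# Vanishing of Hochster's theta for weighted leading forms `z^n - g`, `gcd(n, deg g) = 1`

`R` is a regular local ring of dimension `d + 1` (any characteristic, mixed characteristic
allowed): a Noetherian local ring whose maximal ideal is generated by a regular sequence
`z = x 0, x 1, .., x d`.  Weights: `w0 > 0` for `z`, `n * w i` for `x (i+1)`, with
`gcd (w0, n) = 1`; `g` is weighted homogeneous of degree `w0` for the weights `w i` (so `z^n` and
`g` both have weight `n * w0`), `f ≡ z^n - g(x 1, .., x d)` modulo the ideal generated by the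
monomials of weight `> n * w0`, and `k[Z, X]/(F0, all ∂F0)`, `F0 = Z^n - g0`, is finite dimensional.
Then for all finitely generated modules over `A = R/(f)` the lengths of `Tor_i^A(L, M)`, `i > d`,
are finite and all equal; in particular `theta^A = 0`.
-/

universe u

namespace Pool.Agent.Results.MP_484054_ag.CoprimeForms

open MvPolynomial IsLocalRing Pool.Agent.HT21

theorem result {R : Type u} [CommRing R] [IsLocalRing R] [IsNoetherianRing R] (d : ℕ)
    (x : Fin (d + 1) → R)
    (hx : Ideal.span (Set.range x) = maximalIdeal R)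
    (hreg : RingTheory.Sequence.IsRegular R (List.ofFn x))
    (n w0 : ℕ) (w : Fin d → ℕ) (hn : 0 < n) (hw0 : 0 < w0) (hw : ∀ i, 0 < w i)
    (hco : Nat.Coprime w0 n)
    (g : MvPolynomial (Fin d) R) (hg : g.IsWeightedHomogeneous w w0)
    (f : R) (hf : f - (x 0 ^ n - aeval (fun i => x (Fin.succ i)) g)
      ∈ (wFilt x (Fin.cons w0 fun i => n * w i)).F (n * w0 + 1))
    (hJ : Module.Finite (ResidueField R) (MvPolynomial (Fin (d + 1)) (ResidueField R) ⧸
      Ideal.span (({X 0 ^ n - rename Fin.succ (g.map (residue R))} :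
          Set (MvPolynomial (Fin (d + 1)) (ResidueField R))) ∪
        Set.range fun i => pderiv i (X 0 ^ n - rename Fin.succ (g.map (residue R))))))
    (L M : Type u) [AddCommGroup L] [Module (R ⧸ Ideal.span {f}) L]
    [AddCommGroup M] [Module (R ⧸ Ideal.span {f}) M]
    [Module.Finite (R ⧸ Ideal.span {f}) L] [Module.Finite (R ⧸ Ideal.span {f}) M] :
    (∀ i, d < i → torLen (R ⧸ Ideal.span {f}) i L M ≠ ⊤ ∧
      torLen (R ⧸ Ideal.span {f}) (i + 1) L M = torLen (R ⧸ Ideal.span {f}) i L M) ∧
    ∀ e, d ≤ 2 * e → theta (R ⧸ Ideal.span {f}) e L M = 0 := by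
  have key := coprime_vanish d x hx hreg n w0 w hn hw0 hw hco g hg f hf hJ L M
  refine ⟨key, fun e he => ?_⟩
  unfold theta
  rw [(key (2 * e + 1) (by omega)).2]
  exact sub_self _

end Pool.Agent.Results.MP_484054_ag.CoprimeForms
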