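import Pool.Agent.HT51.KpFin

/-!
# Vanishing of Hochster's theta in even dimension for leading forms of corank at most three

`R` is a regular local ring of dimension `d + 1`, of equal or mixed characteristic, with ANY residue
field: a Noetherian local ring whose maximal ideal is generated by a regular sequence `x 0, .., x d`.
Weights `w i > 0`; `f ≡ P(x)` modulo the ideal generated by the monomials of weight `> N`, where `P`
is weighted homogeneous of weight `N > 0`, and the leading form `P mod m_R` has a finite dimensional
Tjurina algebra.

The type of the leading form: over some field `K` containing the residue field and after an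
isomorphism `α : K[X_0, .., X_d] ≃ K[x, y, z, u_1, .., u_k, v_1, .., v_k]` of rings, it is
`g(x, y, z) + u_1 v_1 + ⋯ + u_k v_k`, where `g` is an ARBITRARY prime polynomial in three variables
whose Tjurina ideal `(g, ∂g)` contains powers of the three variables (isolated singularity).  So
`d = 2 k + 2` is even, and the quadratic part of the leading form may have corank up to three.

`A` is a Noetherian local ring with a flat map `A → R/(f)` with `m_A (R/(f)) = m_{R/(f)}`, for
instance `A = R/(f)`, or a local ring with completion `R/(f)` (a local hypersurface).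

Then for all finitely generated `A`-modules `L`, `M` the lengths of `Tor_i^A(L, M)`, `i > d`, are
finite and all equal; in particular `theta^A(L, M) = 0`.
-/

universe u

namespace Pool.Agent.Results.MP_484054_ag.CorankThree

open MvPolynomial IsLocalRing Pool.Agent.HT21 Pool.Agent.HT51

theorem result {R : Type u} [CommRing R] [IsLocalRing R] [IsNoetherianRing R] (d k : ℕ)
    (x : Fin (d + 1) → R)
    (hx : Ideal.span (Set.range x) = maximalIdeal R)
    (hreg : RingTheory.Sequence.IsRegular R (List.ofFn x))
    (w : Fin (d + 1) → ℕ) (hw : ∀ i, 0 < w i) (N : ℕ) (hN : 0 < N)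
    (P : MvPolynomial (Fin (d + 1)) R) (hP : P.IsWeightedHomogeneous w N)
    (hJ : Module.Finite (ResidueField R)
      (MvPolynomial (Fin (d + 1)) (ResidueField R) ⧸ jacIdeal (P.map (residue R))))
    (f : R) (hf : f - aeval x P ∈ (wFilt x w).F (N + 1))
    -- the type of the leading form
    {K : Type u} [Field K] (ι : ResidueField R →+* K)
    (α : MvPolynomial (Fin (d + 1)) K ≃+* MvPolynomial (Fin 3 ⊕ (Fin k ⊕ Fin k)) K)
    (g : MvPolynomial (Fin 3) K) (hg : Prime g) (E : ℕ)
    (hE : ∀ i, X i ^ E ∈ Ideal.span ({g} ∪ Set.range fun i => pderiv i g))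
    (hα : α ((P.map (residue R)).map ι) = rename Sum.inl g +
      ∑ i : Fin k, X (Sum.inr (Sum.inl i)) * X (Sum.inr (Sum.inr i)))
    -- the local ring
    {A : Type u} [CommRing A] [IsLocalRing A] [IsNoetherianRing A]
    (φ : A →+* R ⧸ Ideal.span {f}) (hφ : φ.Flat)
    (hm : (maximalIdeal A).map φ = (maximalIdeal R).map (Ideal.Quotient.mk (Ideal.span {f})))
    (L M : Type u) [AddCommGroup L] [Module A L] [AddCommGroup M] [Module A M]
    [Module.Finite A L] [Module.Finite A M] :
    (∀ i, d < i → torLen A i L M ≠ ⊤ ∧ torLen A (i + 1) L M = torLen A i L M) ∧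
    ∀ e, d ≤ 2 * e → theta A e L M = 0 :=
  vanish_of_flat f (mem_max_of_lead x w hw hx N hN P hP f hf) φ hφ hm d
    (fun L M _ _ _ _ _ _ => (corank_vanish d k x hx hreg w hw N hN P hP hJ ι α g hg E hE hα f hf
      L M).1) L M

end Pool.Agent.Results.MP_484054_ag.CorankThree
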