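import Pool.Agent.HT51.FinH
import Pool.Agent.HT51.FlatPass

/-!
# Vanishing of Hochster's theta in even dimension for leading forms of invertible type

`R` is a regular local ring of dimension `d + 1`, `d` EVEN, of equal or mixed characteristic, with
ANY residue field: a Noetherian local ring whose maximal ideal is generated by a regular sequence
`x 0, .., x d`.  Weights `w i > 0`; `f ≡ P(x)` modulo the ideal generated by the monomials of weight
`> N`, where `P` is weighted homogeneous of weight `N > 0`, and the leading form `P mod m_R` has a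
finite dimensional Tjurina algebra.

The type of the leading form: over some field `K` containing the residue field and after some
automorphism `α` of the ring `K[X]`, it is the image of a polynomial `F` over a local principal
ideal domain `O ⊆ K` (for instance `O = K`, or a discrete valuation ring), `X_i ^ E ∈ (F, ∂F)`, and
the reduction of `F` modulo the maximal ideal of `O` is an INVERTIBLE POLYNOMIAL
`∑ c_j X_j ^ (a_j) X_{nx j}`: all `a_j ≥ 1`, `nx` a partial injective map without fixed points (no
factor `X_{nx j}` where `nx j` is not defined), every loop of even length of `nx` contains some `j`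
with `a_j ≥ 2`, and all `c_j ≠ 0`.  These are the sums of Fermat, chain and loop polynomials, with
arbitrary exponents.  More generally `c_q = 0` is allowed when `q = nx p` with `c_p ≠ 0` and no
monomial with a nonzero coefficient ends in `X_p` (hyperbolic pairs: `X_p` and `X_q` then occur only
in `c_p X_p ^ (a_p) X_q`); for instance nondegenerate quadratic forms in residue characteristic 2.

`A` is a Noetherian local ring with a flat map `A → R/(f)` with `m_A (R/(f)) = m_{R/(f)}`, for
instance `A = R/(f)`, or a local ring with completion `R/(f)` (a local hypersurface).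

Then for all finitely generated `A`-modules `L`, `M` the lengths of `Tor_i^A(L, M)`, `i > d`, are
finite and all equal; in particular `theta^A(L, M) = 0`.
-/

universe u

namespace Pool.Agent.Results.MP_484054_ag.InvertibleForms

open MvPolynomial IsLocalRing Pool.Agent.HT21 Pool.Agent.HT51

theorem result {R : Type u} [CommRing R] [IsLocalRing R] [IsNoetherianRing R] (d : ℕ)
    (hd : Even d) (x : Fin (d + 1) → R)
    (hx : Ideal.span (Set.range x) = maximalIdeal R)
    (hreg : RingTheory.Sequence.IsRegular R (List.ofFn x))
    (w : Fin (d + 1) → ℕ) (hw : ∀ i, 0 < w i) (N : ℕ) (hN : 0 < N)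
    (P : MvPolynomial (Fin (d + 1)) R) (hP : P.IsWeightedHomogeneous w N)
    (hJ : Module.Finite (ResidueField R)
      (MvPolynomial (Fin (d + 1)) (ResidueField R) ⧸ jacIdeal (P.map (residue R))))
    (f : R) (hf : f - aeval x P ∈ (wFilt x w).F (N + 1))
    -- the type of the leading form
    {K : Type u} [Field K] (ι : ResidueField R →+* K)
    (α : MvPolynomial (Fin (d + 1)) K ≃+* MvPolynomial (Fin (d + 1)) K)
    {O : Type u} [CommRing O] [IsDomain O] [IsLocalRing O] [IsPrincipalIdealRing O]
    (j : O →+* K) (hj : Function.Injective j)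
    (F : MvPolynomial (Fin (d + 1)) O) (hFα : F.map j = α ((P.map (residue R)).map ι))
    (E : ℕ) (hE : ∀ i, X i ^ E ∈ Ideal.span ({F} ∪ Set.range fun i => pderiv i F))
    (c : Fin (d + 1) → ResidueField O) (a : Fin (d + 1) → ℕ)
    (ha : ∀ i, 0 < a i) (nx : Fin (d + 1) → Option (Fin (d + 1)))
    (hc : ∀ q, c q = 0 → ∃ p, nx p = some q ∧ c p ≠ 0 ∧ ∀ i, nx i = some p → c i = 0)
    (hinj : ∀ i i' l, nx i = some l → nx i' = some l → i = i') (hfix : ∀ i, nx i ≠ some i)
    (hloop : ∀ (n : ℕ) (y : ℕ → Fin (d + 1)), IsLoop nx n y → Even n → ∃ k, k < n ∧ 2 ≤ a (y k))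
    (hred : F.map (residue O) = ∑ i, C (c i) * X i ^ a i * (nx i).elim 1 X)
    -- the local ring
    {A : Type u} [CommRing A] [IsLocalRing A] [IsNoetherianRing A]
    (φ : A →+* R ⧸ Ideal.span {f}) (hφ : φ.Flat)
    (hm : (maximalIdeal A).map φ = (maximalIdeal R).map (Ideal.Quotient.mk (Ideal.span {f})))
    (L M : Type u) [AddCommGroup L] [Module A L] [AddCommGroup M] [Module A M]
    [Module.Finite A L] [Module.Finite A M] :
    (∀ i, d < i → torLen A i L M ≠ ⊤ ∧ torLen A (i + 1) L M = torLen A i L M) ∧
    ∀ e, d ≤ 2 * e → theta A e L M = 0 :=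
  vanish_of_flat f (mem_max_of_lead x w hw hx N hN P hP f hf) φ hφ hm d
    (fun L M _ _ _ _ _ _ => (degen_vanish_h d hd x hx hreg w hw N hN P hP hJ ι α j hj F E hE hFα c
      a ha nx hinj hfix hloop hc hred f hf L M).1) L M

end Pool.Agent.Results.MP_484054_ag.InvertibleForms
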