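import Pool.Agent.HT21.FinalA

/-!
# Hochster's theta of a hypersurface and of its (weighted) tangent cone

`R` is a regular local ring of dimension `d + 1` (any characteristic, mixed characteristic
allowed): a Noetherian local ring whose maximal ideal is generated by a regular sequence
`x 0, .., x d`.  The `x i` get weights `w i > 0`; `F n` is the ideal generated by the monomials of
weight `≥ n` (for `w = 1` it is the `n`-th power of the maximal ideal).  `f` has the
weighted leading form `P` of weight `N > 0`, with reduction `f0 ≠ 0` in `k[X_0, .., X_d]`, and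
`k[X]/(f0, ∂f0/∂X_0, .., ∂f0/∂X_d)` is finite dimensional over the residue field `k`
(for `w = 1`: the projectivised tangent cone is smooth over `k`).  `A = R/(f)`.

For all modules `L`, `M` with good filtrations (so all finitely generated modules): the modules
`Tor_i^A(L, M)` and `Tor_i^{gr A}(gr L, gr M)`, `i > d`, have finite length, the lengths are
`2`-periodic, and `theta^A(L, M) = theta^{gr A}(gr L, gr M)`.
-/

universe u

namespace Pool.Agent.Results.MP_484054_ag.TangentCone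

open MvPolynomial IsLocalRing Pool.Agent.HT21

/-- The weighted filtration of `R/(f)` given by the images of the `x i`, of weight `w i`. -/
noncomputable abbrev qFilt {R : Type u} [CommRing R] {m : ℕ} (x : Fin m → R) (w : Fin m → ℕ)
    (f : R) : RFilt (R ⧸ Ideal.span {f}) :=
  wFilt (fun i => Ideal.Quotient.mk (Ideal.span {f}) (x i)) w

/-- `k[X]/(F, all the partial derivatives of F)` is finite dimensional over `k`. -/
def JacFinite {k : Type u} [Field k] {m : ℕ} (F : MvPolynomial (Fin m) k) : Prop :=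
  Module.Finite k (MvPolynomial (Fin m) k ⧸
    Ideal.span ({F} ∪ Set.range fun i => pderiv i F))

/-- The length of `Tor_i^{gr A}(gr L, gr M)`. -/
noncomputable def torLenGr {A : Type u} [CommRing A] {𝓕 : RFilt A} (i : ℕ) {L M : Type u}
    [AddCommGroup L] [Module A L] [AddCommGroup M] [Module A M]
    (𝓛 : MFilt 𝓕 L) (𝓜 : MFilt 𝓕 M) : ℕ∞ :=
  torLen 𝓕.gr i 𝓛.gr 𝓜.gr

/-- Hochster's theta of `gr L`, `gr M` over `gr A`. -/
noncomputable def thetaGr {A : Type u} [CommRing A] {𝓕 : RFilt A} (e : ℕ) {L M : Type u}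
    [AddCommGroup L] [Module A L] [AddCommGroup M] [Module A M]
    (𝓛 : MFilt 𝓕 L) (𝓜 : MFilt 𝓕 M) : ℤ :=
  theta 𝓕.gr e 𝓛.gr 𝓜.gr

theorem result {R : Type u} [CommRing R] [IsLocalRing R] [IsNoetherianRing R] (d : ℕ)
    (x : Fin (d + 1) → R)
    (hx : Ideal.span (Set.range x) = maximalIdeal R)
    (hreg : RingTheory.Sequence.IsRegular R (List.ofFn x))
    (w : Fin (d + 1) → ℕ) (hw : ∀ i, 0 < w i)
    (N : ℕ) (hN : 0 < N) (P : MvPolynomial (Fin (d + 1)) R) (hP : P.IsWeightedHomogeneous w N)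
    (hP0 : P.map (residue R) ≠ 0)
    (f : R) (hf : f - aeval x P ∈ (wFilt x w).F (N + 1))
    (hJ : JacFinite (P.map (residue R)))
    (L M : Type u) [AddCommGroup L] [Module (R ⧸ Ideal.span {f}) L]
    [AddCommGroup M] [Module (R ⧸ Ideal.span {f}) M]
    (𝓛 : MFilt (qFilt x w f) L) (𝓜 : MFilt (qFilt x w f) M) (hL : 𝓛.Good) (hM : 𝓜.Good) :
    (∀ i, d < i →
      torLen (R ⧸ Ideal.span {f}) i L M ≠ ⊤ ∧
      torLen (R ⧸ Ideal.span {f}) (i + 2) L M = torLen (R ⧸ Ideal.span {f}) i L M ∧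
      torLenGr i 𝓛 𝓜 ≠ ⊤ ∧ torLenGr (i + 2) 𝓛 𝓜 = torLenGr i 𝓛 𝓜) ∧
    ∀ e, d ≤ 2 * e → theta (R ⧸ Ideal.span {f}) e L M = thetaGr e 𝓛 𝓜 := by
  have := hL.finite
  have := hM.finite
  have := gr_finite 𝓛 hL
  have := gr_finite 𝓜 hM
  obtain ⟨h1, h2⟩ := tangent_cone d x w hw hx hreg N hN P hP hP0 f hf hJ L M 𝓛 𝓜 hL hM
  refine ⟨fun i hi => ⟨(h1 i hi).1, ?_, (h1 i hi).2, ?_⟩, h2⟩
  · exact hypA d x w hw hx hreg N hN P hP hP0 f hf L M i hi
  · exact hypG_per d x w hw hx hreg N hN P hP hP0 f hf 𝓛.gr 𝓜.gr i hi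

end Pool.Agent.Results.MP_484054_ag.TangentCone
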